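import Pool.Agent.ISB.StmtsB

/-! Row GID of squad ISB. -/

set_option autoImplicit false

namespace Pool.Agent.ISB.H55

open Pool.Agent.ISB
open scoped Classical commutatorElement

theorem gid (hGMC : GmcStmt) : GidStmt := by
  intro P _ F _ _ f hf
  obtain ⟨hC, hM, hN, -, h0⟩ := hGMC P
  have hhom : ∀ j, ∀ x ∈ gm P j, ∀ y ∈ gm P j, f j (x * y) = f j x + f j y :=
    fun j => (hf j).1
  have hz : ∀ j k, j + 1 ≤ k → ∀ x ∈ gm P k, f j x = 0 :=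
    fun j k hk x hx => (hf j).2.1 x (hM _ _ hk hx)
  have htop : ∀ x : P, x ∈ gm P 0 := by
    intro x
    rw [h0]
    exact Subgroup.mem_top x
  have hone : ∀ j, f j 1 = 0 := by
    intro j
    have h := hhom j 1 (one_mem _) 1 (one_mem _)
    rw [one_mul] at h
    exact left_eq_add.mp h
  have hinv : ∀ j, ∀ x ∈ gm P j, f j x⁻¹ = f j x := by
    intro j x hx
    have h := hhom j x hx x⁻¹ (inv_mem hx)
    rw [mul_inv_cancel, hone] at h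
    have h1 : f j x⁻¹ = - f j x := by
      rw [eq_neg_iff_add_eq_zero, add_comm]
      exact h.symm
    rw [h1, CharTwo.neg_eq]
  have id3 : ∀ x g h : P, ⁅x, g * h⁆ = ⁅x, g⁆ * ⁅g, ⁅x, h⁆⁆ * ⁅x, h⁆ := by
    intro x g h
    simp only [commutatorElement_def]
    group
  have id4 : ∀ x y g : P, ⁅x * y, g⁆ = ⁅x, ⁅y, g⁆⁆ * ⁅y, g⁆ * ⁅x, g⁆ := by
    intro x y g
    simp only [commutatorElement_def]
    group
  have h3 : ∀ m : ℕ, ∀ A ∈ gm P m, ∀ B ∈ gm P (m + 1), ∀ C ∈ gm P m,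
      f m (A * B * C) = f m A + f m C := by
    intro m A hA B hB C hC'
    have hB' : B ∈ gm P m := hM _ _ (Nat.le_succ m) hB
    rw [hhom m _ (mul_mem hA hB') C hC', hhom m A hA B hB', hz m (m + 1) le_rfl B hB, add_zero]
  refine ⟨hone, hinv, ?_, ?_, ?_, ?_⟩
  · intro a j x hx g hg h hh
    have e1 : ⁅x, g⁆ ∈ gm P (j + a + 1) := by
      have := hC a j x hx g hg
      rwa [add_comm a j] at this
    have e2 : ⁅x, h⁆ ∈ gm P (j + a + 1) := by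
      have := hC a j x hx h hh
      rwa [add_comm a j] at this
    have e3 : ⁅g, ⁅x, h⁆⁆ ∈ gm P (j + a + 1 + 1) :=
      hM _ _ (by omega) (hC j (j + a + 1) g hg _ e2)
    rw [id3, h3 _ _ e1 _ e3 _ e2]
  · intro a j x hx y hy g hg
    have e1 : ⁅x, g⁆ ∈ gm P (j + a + 1) := by
      have := hC a j x hx g hg
      rwa [add_comm a j] at this
    have e2 : ⁅y, g⁆ ∈ gm P (j + a + 1) := by
      have := hC a j y hy g hg
      rwa [add_comm a j] at this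
    have e3 : ⁅x, ⁅y, g⁆⁆ ∈ gm P (j + a + 1 + 1) :=
      hM _ _ (by omega) (hC a (j + a + 1) x hx _ e2)
    have e4 : ⁅x, ⁅y, g⁆⁆ ∈ gm P (j + a + 1) := hM _ _ (Nat.le_succ _) e3
    rw [id4, hhom _ _ (mul_mem e4 e2) _ e1, hhom _ _ e4 _ e2,
      hz (j + a + 1) _ le_rfl _ e3, zero_add, add_comm]
  · intro a b j x hx y hy g hg
    have hw : ⁅x, y⁆ ∈ gm P (a + b + 1) := hC a b x hx y hy
    have hyg : ⁅y, g⁆ ∈ gm P (b + j + 1) := hC b j y hy g hg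
    have hxg : ⁅x, g⁆ ∈ gm P (a + j + 1) := hC a j x hx g hg
    have hxyg : ⁅x, ⁅y, g⁆⁆ ∈ gm P (j + a + b + 2) :=
      hM _ _ (by omega) (hC a (b + j + 1) x hx _ hyg)
    have hyxg : ⁅y, ⁅x, g⁆⁆ ∈ gm P (j + a + b + 2) :=
      hM _ _ (by omega) (hC b (a + j + 1) y hy _ hxg)
    have hmid : ⁅⁅y, g⁆, ⁅x, g⁆⁆ ∈ gm P (j + a + b + 2 + 1) :=
      hM _ _ (by omega) (hC (b + j + 1) (a + j + 1) _ hyg _ hxg)
    have hu : ⁅y * x, g⁆ ∈ gm P (j + 1) :=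
      hM _ _ (by omega) (hC 0 j _ (htop _) g hg)
    have hwg : ⁅⁅x, y⁆, g⁆ ∈ gm P (j + a + b + 2) :=
      hM _ _ (by omega) (hC (a + b + 1) j _ hw g hg)
    have hwu : ⁅⁅x, y⁆, ⁅y * x, g⁆⁆ ∈ gm P (j + a + b + 2 + 1) :=
      hM _ _ (by omega) (hC (a + b + 1) (j + 1) _ hw _ hu)
    have hwu' : ⁅⁅x, y⁆, ⁅y * x, g⁆⁆ ∈ gm P (j + a + b + 2) := hM _ _ (Nat.le_succ _) hwu
    have huwg : ⁅⁅y * x, g⁆, ⁅⁅x, y⁆, g⁆⁆ ∈ gm P (j + a + b + 2 + 1) :=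
      hM _ _ (by omega) (hC (j + 1) (j + a + b + 2) _ hu _ hwg)
    have id5 : ⁅⁅x, y⁆, ⁅y * x, g⁆ * g⁆ =
        ⁅x, ⁅y, g⁆⁆ * ⁅⁅y, g⁆, ⁅x, g⁆⁆ * ⁅y, ⁅x, g⁆⁆⁻¹ := by
      simp only [commutatorElement_def]
      group
    have e1 : f (j + a + b + 2) ⁅⁅x, y⁆, ⁅y * x, g⁆ * g⁆ =
        f (j + a + b + 2) ⁅x, ⁅y, g⁆⁆ + f (j + a + b + 2) ⁅y, ⁅x, g⁆⁆ := by
      rw [id5, h3 _ _ hxyg _ hmid _ (inv_mem hyxg), hinv _ _ hyxg]
    have e2 : f (j + a + b + 2) ⁅⁅x, y⁆, ⁅y * x, g⁆ * g⁆ = f (j + a + b + 2) ⁅⁅x, y⁆, g⁆ := by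
      rw [id3 ⁅x, y⁆ ⁅y * x, g⁆ g, h3 _ _ hwu' _ huwg _ hwg, hz _ _ le_rfl _ hwu, zero_add]
    rw [← e2, e1]
  · intro j x hx g
    have e0 : ⁅g, x⁆ ∈ gm P (j + 1) := hM _ _ (by omega) (hC 0 j g (htop g) x hx)
    have e1 : g * x * g⁻¹ = ⁅g, x⁆ * x := by
      simp only [commutatorElement_def]
      group
    rw [e1, hhom j _ (hM _ _ (Nat.le_succ j) e0) x hx, hz j _ le_rfl _ e0, zero_add]

end Pool.Agent.ISB.H55
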