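import Pool.Agent.ISB.StmtsA

/-! Row NLB of squad ISB. -/

set_option autoImplicit false

namespace Pool.Agent.ISB.H55

open Pool.Agent.ISB

theorem nlb (hIDL : IdlStmt) (hEIG : EigStmt) (hMLT : MltStmt) (hEON : EonStmt)
    (hNLA : NlaStmt) : NlbStmt := by
  intro F L _ _ _ r n σ ζ R H hr hA hC t
  obtain ⟨-, -, hE3, -⟩ := hEIG F L r σ ζ hA
  obtain ⟨hSt, -, -⟩ := hEON F L r n σ ζ R H hA hC
  obtain ⟨-, -, -, hI4⟩ := hIDL F L (Submodule.span F R) hSt.cl
  obtain ⟨hM1, -⟩ := hMLT F L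
  have key : ∀ B : Submodule F L, (∀ a ∈ B, σ a ∈ B) →
      B = Submodule.span F {x | ∃ e < r, x ∈ B ⊓ W σ ζ e} := by
    intro B hB
    apply le_antisymm
    · intro b hb
      obtain ⟨c, hc, hs⟩ := hE3 B hB b hb
      rw [hs]
      exact Submodule.sum_mem _
        (fun k hk => Submodule.subset_span ⟨k, Finset.mem_range.mp hk, hc k⟩)
    · rw [Submodule.span_le]
      rintro x ⟨e, -, hx⟩
      exact hx.1
  have h1 := key (dr (Submodule.span F R) (t + 1)) (hI4 σ hA.lie hSt.st (t + 1))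
  have h0 := key (dr (Submodule.span F R) t) (hI4 σ hA.lie hSt.st t)
  have h2 : itr (dr (Submodule.span F R) (t + 1)) (dr (Submodule.span F R) t) (a0 r n) =
      itr (Submodule.span F {x | ∃ e < r, x ∈ dr (Submodule.span F R) (t + 1) ⊓ W σ ζ e})
        (Submodule.span F {x | ∃ e < r, x ∈ dr (Submodule.span F R) t ⊓ W σ ζ e}) (a0 r n) := by
    rw [← h1, ← h0]
  rw [h2, hM1, Submodule.span_le]
  rintro z ⟨u, ⟨a, -, hu⟩, cs, hlen, hcs, rfl⟩
  exact hNLA F L r n σ ζ R H hr hA hC t a u hu.1 hu.2 cs hlen hcs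

end Pool.Agent.ISB.H55
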